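import Mathlib
import Pool.Agent.R605.IU2

set_option autoImplicit false

open MeasureTheory
open Pool.Agent.R605.IU

namespace Pool.Agent.Results.MP_930073_lc.NotInherited

/-- There are an analytic quasi-order `S` on a Polish space and analytic equivalence relations
`E`, `F` contained in `E_S` such that `(S, F)` is invariantly universal and `E` is Borel reducible
to `F`, but `(S, E)` is not invariantly universal. -/
theorem result :
    ∃ (X : Type) (_ : TopologicalSpace X) (_ : MeasurableSpace X) (S E F : X → X → Prop),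
      PolishSpace X ∧ BorelSpace X ∧
      QuasiOrder S ∧ IsAnalyticRel S ∧
      Equivalence E ∧ IsAnalyticRel E ∧ (∀ x y, E x y → S x y ∧ S y x) ∧
      Equivalence F ∧ IsAnalyticRel F ∧ (∀ x y, F x y → S x y ∧ S y x) ∧
      InvariantlyUniversal S F ∧
      (∃ f : X → X, Measurable f ∧ ∀ x y, E x y ↔ F (f x) (f y)) ∧
      ¬ InvariantlyUniversal S E := by
  obtain ⟨D, hD, hD'⟩ := Pool.Agent.Helper222.CPE.NB.exists_analytic_not_measurable
  have hne : D.Nonempty := by
    rw [Set.nonempty_iff_ne_empty]
    rintro rfl
    exact hD' MeasurableSet.empty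
  refine ⟨W, inferInstance, inferInstance, SS D, EW D, FW D, inferInstance, inferInstance,
    SS_qo D, SS_analytic hD, EW_equiv D, EW_analytic hD, fun x y h => h,
    FW_equiv D, FW_analytic hD, ?_, univF hne, EW_le_FW, not_univE hD'⟩
  rintro x y (rfl | ⟨_, _, h⟩)
  · exact ⟨(SS_qo D).1 _, (SS_qo D).1 _⟩
  · exact h

end Pool.Agent.Results.MP_930073_lc.NotInherited
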